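import Pool.Agent.Work.MP_dcf6a6_tv.Interface

/-!
# Block ZED (helper39)
-/

set_option autoImplicit false

open CategoryTheory AlgebraicGeometry

namespace Pool.TVar.helper39

open Pool.TVar

theorem sqf_coprime {f g h : Polynomial ℂ} (hh : Squarefree h) (hd : f * g ∣ h) : IsCoprime f g :=
  ((squarefree_mul_iff.1 (hh.squarefree_of_dvd hd)).1).isCoprime

theorem sq_facts {B K : Type} [Fintype B] [Fintype K] (f : B → Polynomial ℂ)
    (g : K → Polynomial ℂ) (h : Squarefree ((∏ b, f b) * ∏ k, g k)) :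
    (∀ b, Squarefree (f b)) ∧ (∀ b b', b ≠ b' → IsCoprime (f b) (f b')) ∧
    (∀ b k, IsCoprime (f b) (g k)) ∧ (∀ k k', k ≠ k' → IsCoprime (g k) (g k')) := by
  classical
  have hf : ∀ b, f b ∣ ∏ b, f b := fun b => Finset.dvd_prod_of_mem f (Finset.mem_univ b)
  have hg : ∀ k, g k ∣ ∏ k, g k := fun k => Finset.dvd_prod_of_mem g (Finset.mem_univ k)
  refine ⟨?_, ?_, ?_, ?_⟩
  · intro b
    exact h.squarefree_of_dvd ((hf b).mul_right _)
  · intro b b' hbb
    apply sqf_coprime h
    apply Dvd.dvd.mul_right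
    rw [← Finset.mul_prod_erase Finset.univ f (Finset.mem_univ b)]
    exact mul_dvd_mul_left _ (Finset.dvd_prod_of_mem f
      (Finset.mem_erase.2 ⟨hbb.symm, Finset.mem_univ b'⟩))
  · intro b k
    exact sqf_coprime h (mul_dvd_mul (hf b) (hg k))
  · intro k k' hkk
    apply sqf_coprime h
    apply Dvd.dvd.mul_left
    rw [← Finset.mul_prod_erase Finset.univ g (Finset.mem_univ k)]
    exact mul_dvd_mul_left _ (Finset.dvd_prod_of_mem g
      (Finset.mem_erase.2 ⟨hkk.symm, Finset.mem_univ k'⟩))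

/-- the curve in one coordinate -/
theorem curve_facts (a c b : ℂ) (n : ℕ) (hn : 2 ≤ n) (hb : b ≠ 0) :
    (Polynomial.C b * Polynomial.X ^ n + Polynomial.C c * Polynomial.X +
      Polynomial.C a).natDegree = n ∧
    (Polynomial.C b * Polynomial.X ^ n + Polynomial.C c * Polynomial.X +
      Polynomial.C a).coeff n = b ∧
    (Polynomial.C b * Polynomial.X ^ n + Polynomial.C c * Polynomial.X +
      Polynomial.C a).coeff 0 = a := by
  have h1 : (Polynomial.C b * Polynomial.X ^ n + Polynomial.C c * Polynomial.X +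
      Polynomial.C a).coeff n = b := by
    simp only [Polynomial.coeff_add, Polynomial.coeff_C_mul, Polynomial.coeff_X_pow, if_true,
      Polynomial.coeff_X, Polynomial.coeff_C]
    rw [if_neg (by omega : ¬ (1 = n)), if_neg (by omega : ¬ (n = 0))]
    ring
  refine ⟨?_, h1, ?_⟩
  · apply Polynomial.natDegree_eq_of_le_of_coeff_ne_zero
    · refine (Polynomial.natDegree_add_le _ _).trans (max_le ?_ ?_)
      · refine (Polynomial.natDegree_add_le _ _).trans (max_le ?_ ?_)
        · exact Polynomial.natDegree_C_mul_X_pow_le b n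
        · exact (Polynomial.natDegree_C_mul_le c _).trans
            (Polynomial.natDegree_X_le.trans (by omega))
      · rw [Polynomial.natDegree_C]
        exact Nat.zero_le n
    · rw [h1]
      exact hb
  · simp only [Polynomial.coeff_add, Polynomial.coeff_C_mul, Polynomial.coeff_X_pow,
      Polynomial.coeff_X, Polynomial.coeff_C_zero]
    rw [if_neg (by omega : ¬ (0 = n)), if_neg (by omega : ¬ (1 = 0))]
    ring

/-- ZED -/
theorem stmt_ZED (hDEG : Stmt_DEG) (hSQF : Stmt_SQF) : Stmt_ZED := by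
  intro J K I B _ _ _ _ _ _ D x y N hN hx hy hx0 hy0
  set xs : K → ℂ := fun k => x (Sum.inr k) with hxs
  set ys : K → ℂ := fun k => y (Sum.inr k) with hys
  have hP : ∀ (w : J ⊕ K → ℂ), D.IsPt w → (∀ v, w v ≠ 0) → ∀ b,
      MvPolynomial.eval (fun k => w (Sum.inr k)) (D.P b) ≠ 0 := by
    intro w hw hw0 b hb
    have h1 := hw (D.ba b)
    have h2 : ∏ j with D.ja j = D.ba b, w (Sum.inl j) ≠ 0 :=
      Finset.prod_ne_zero_iff.2 fun j _ => hw0 _
    rw [h1, Finset.prod_ne_zero_iff] at h2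
    exact h2 b (Finset.mem_filter.2 ⟨Finset.mem_univ _, rfl⟩)
      (by rw [hb, zero_pow (D.m_pos b).ne'])
  have hPx := hP x hx hx0
  have hPy := hP y hy hy0
  set H : MvPolynomial K ℂ := (∏ b, D.P b) * ∏ k, MvPolynomial.X k with hH
  have hhom : H.IsWeightedHomogeneous D.u ((∑ b, D.p b) + ∑ k, D.u k) := by
    apply MvPolynomial.IsWeightedHomogeneous.mul
    · exact MvPolynomial.IsWeightedHomogeneous.prod _ _ _ fun b _ => D.homog b
    · exact MvPolynomial.IsWeightedHomogeneous.prod _ _ _ fun k _ =>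
        MvPolynomial.isWeightedHomogeneous_X ℂ D.u k
  have hev : ∀ (w : K → ℂ), (∀ k, w k ≠ 0) → (∀ b, MvPolynomial.eval w (D.P b) ≠ 0) →
      MvPolynomial.eval w H ≠ 0 := by
    intro w hw0 hw
    rw [hH, map_mul, map_prod, map_prod]
    refine mul_ne_zero (Finset.prod_ne_zero_iff.2 fun b _ => hw b)
      (Finset.prod_ne_zero_iff.2 fun k _ => ?_)
    rw [MvPolynomial.eval_X]
    exact hw0 k
  obtain ⟨c, hc⟩ := hSQF D.u H _ N xs ys D.u_pos hN hhom D.squarefree
    (hev xs (fun k => hx0 _) hPx) (hev ys (fun k => hy0 _) hPy)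
  set z : K → Polynomial ℂ := fun k => Polynomial.C (ys k) * Polynomial.X ^ (N * D.u k) +
    Polynomial.C (c k) * Polynomial.X + Polynomial.C (xs k) with hz
  have hNu : ∀ k, 2 ≤ N * D.u k := fun k =>
    hN.trans (Nat.le_mul_of_pos_right N (D.u_pos k))
  have hzf : ∀ k, (z k).natDegree = N * D.u k ∧ (z k).coeff (N * D.u k) = ys k ∧
      (z k).coeff 0 = xs k := fun k => curve_facts (xs k) (c k) (ys k) (N * D.u k) (hNu k) (hy0 _)
  have hDEG' : ∀ b, (MvPolynomial.aeval z (D.P b)).natDegree ≤ N * D.p b ∧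
      (MvPolynomial.aeval z (D.P b)).coeff (N * D.p b) = MvPolynomial.eval ys (D.P b) ∧
      (MvPolynomial.aeval z (D.P b)).coeff 0 = MvPolynomial.eval xs (D.P b) := by
    intro b
    obtain ⟨h1, h2, h3⟩ := hDEG D.u (D.P b) (D.p b) N z (D.homog b) (fun k => (hzf k).1.le)
    refine ⟨h1, ?_, ?_⟩
    · rw [h2, funext fun k => (hzf k).2.1, MvPolynomial.aeval_eq_eval]
    · rw [h3, funext fun k => (hzf k).2.2, MvPolynomial.aeval_eq_eval]
  have hnd : ∀ b, (MvPolynomial.aeval z (D.P b)).natDegree = N * D.p b := fun b =>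
    Polynomial.natDegree_eq_of_le_of_coeff_ne_zero (hDEG' b).1 (by rw [(hDEG' b).2.1]; exact hPy b)
  have hfac : MvPolynomial.aeval z H =
      (∏ b, MvPolynomial.aeval z (D.P b)) * ∏ k, z k := by
    rw [hH, map_mul, map_prod, map_prod]
    simp only [MvPolynomial.aeval_X]
  have hsq : Squarefree ((∏ b, MvPolynomial.aeval z (D.P b)) * ∏ k, z k) := by
    rw [← hfac]
    exact hc
  obtain ⟨q1, q2, q3, q4⟩ := sq_facts (fun b => MvPolynomial.aeval z (D.P b)) z hsq
  refine ⟨z, ?_, ?_, q2, q3, q4⟩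
  · intro k
    refine ⟨(hzf k).1, ?_, (hzf k).2.2⟩
    rw [Polynomial.leadingCoeff, (hzf k).1]
    exact (hzf k).2.1
  · intro b
    refine ⟨hPy b, hPx b, hnd b, ?_, (hDEG' b).2.2, q1 b⟩
    rw [Polynomial.leadingCoeff, hnd b]
    exact (hDEG' b).2.1

end Pool.TVar.helper39
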